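import Pool.Agent.E8helper3.CH.Thy

/-!
# Cycle class maps on higher Chow groups over finite fields: transfer to smooth cubic hypersurfaces

`Thy F ι p` are the standard properties of the data `D X a b` of a separated scheme `X` of finite type
over the finite field `F`: the group `CH_b(X, a - 2b) ⊗ ℚ`, the spaces `H_a(X̄, ℚ_ℓ(b))` with the
Frobenius (`ℓ = p k`, `k ∈ ι`) and the cycle class maps. `InJ True X` says that `X` carries an affine
bundle with affine total space (this is true for all quasi-projective and for all smooth `X` by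
Jouanolou and Thomason). `cub g` is the hypersurface `∑ yₖ gₖ(x) = 1`, `coh g i j` is its datum
`H^i(j)`.
-/

set_option autoImplicit false

open AlgebraicGeometry MvPolynomial
open Pool.Agent.R904.CU Pool.Agent.Y116.UV Pool.Agent.E8helper3.CH

namespace Pool.Agent.Results.MP_81b968_ag.CubicTransferH3

theorem result (F : Type) [Field F] [Finite F] (ι : Type) (p : ι → ℕ) [∀ k, Fact (p k).Prime]
    (𝒯 : Thy F ι p) :
    -- every variety, singular or not, has the data of a cubic hypersurface `∑ yₖ gₖ(x) = 1`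
    (∀ X : Sch F, InJ True X → ∃ N m₀ : ℕ, ∀ m : ℕ, m₀ ≤ m →
      ∃ (κ : Type) (_ : Fintype κ) (g : κ → MvPolynomial (Fin (m + N)) F),
        (∀ k, (g k).totalDegree ≤ 2) ∧ ∀ i j : ℤ, i ≠ 0 → i ≠ -1 →
          Datum.Iso (𝒯.coh g i j) (𝒯.D X (2 * m - 1 - i) (m - j))) ∧
    -- the data of a given cubic hypersurface
    (∀ (n : ℕ) (κ : Type) [Fintype κ] (g : κ → MvPolynomial (Fin n) F) (i j : ℤ), i ≠ 0 →
      i ≠ -1 → Datum.Iso (𝒯.coh g i j) (𝒯.D (zer g) (2 * n - 1 - i) (n - j))) ∧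
    -- these are smooth cubic hypersurfaces
    (∀ (n : ℕ) (κ : Type) [Fintype κ] (g : κ → MvPolynomial (Fin n) F),
      (∀ k, (g k).totalDegree ≤ 2) →
        Smooth (cub g).hom ∧ (bigPoly g).totalDegree ≤ 3 ∧ IsSmoothCubic (bigPoly g)) ∧
    -- the properties of the data that are invariant under isomorphisms
    (∀ Q : Datum ι p → Prop, Datum.Invariant Q →
      (𝒯.SmoothJ Q ↔ 𝒯.Cubics Q) ∧ (𝒯.AllJ Q ↔ 𝒯.Cubics Q) ∧
      ∀ r : ℤ, 𝒯.AllR Q r ↔ 𝒯.CubicsR Q (r + 1)) ∧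
    -- those that are inherited by direct summands
    (∀ Q : Datum ι p → Prop, Datum.Invariant Q → Datum.Summand Q →
      (∀ r : ℤ, 𝒯.AllR Q (r + 1) → 𝒯.AllR Q r) ∧
      (𝒯.SmoothJ Q ↔ ∀ r₀ : ℤ, ∃ r, r₀ ≤ r ∧ 𝒯.CubicsR Q r)) ∧
    -- surjectivity, injectivity and semisimplicity are such properties
    ((Datum.Invariant (ι := ι) (p := p) Datum.Surj ∧ Datum.Summand (ι := ι) (p := p) Datum.Surj) ∧
      (Datum.Invariant (ι := ι) (p := p) Datum.Inj ∧ Datum.Summand (ι := ι) (p := p) Datum.Inj) ∧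
      (Datum.Invariant (ι := ι) (p := p) Datum.Semi ∧
        Datum.Summand (ι := ι) (p := p) Datum.Semi)) := by
  refine ⟨?_, fun n κ _ g i j h0 h1 => 𝒯.zeros g i j h0 h1, fun n κ _ g hg =>
    ⟨smooth_cub g, (isSmoothCubic_bigPoly g hg).1, isSmoothCubic_bigPoly g hg⟩,
    fun Q hQ => ⟨(𝒯.all_iff hQ).1, (𝒯.all_iff hQ).2, 𝒯.shift hQ⟩,
    fun Q hQ hs => ⟨𝒯.down hQ hs, ?_, ?_⟩,
    ⟨Datum.invariant_surj, Datum.summand_surj⟩, ⟨Datum.invariant_inj, Datum.summand_inj⟩,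
    Datum.invariant_semi, Datum.summand_semi⟩
  · intro X hX
    obtain ⟨N, m₀, h⟩ := 𝒯.transfer hX
    refine ⟨N, m₀, fun m hm => ?_⟩
    obtain ⟨κ, _, g, -, hg, -, hs⟩ := h m hm
    exact ⟨κ, inferInstance, g, hg, hs⟩
  · intro h r₀
    exact ⟨r₀, le_rfl, (𝒯.cubics_iff Q).mp ((𝒯.all_iff hQ).1.mp h) r₀⟩
  · intro h
    exact (𝒯.all_iff hQ).1.mpr ((𝒯.all_iff hQ).2.mp (𝒯.unbounded hQ hs h))

end Pool.Agent.Results.MP_81b968_ag.CubicTransferH3
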