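import Pool.Agent.E8helper74.FQ.Cyc

/-!
# The Tate conjecture for higher Chow groups and systems of equations with few terms

Let `k` be a finite field. `CycleTheory k ℓ` (`Pool.Agent.E8helper74.FQ`) lists the properties which are used of
motivic Borel-Moore homology `CH_b(X, a - 2b) ⊗ ℚ_ℓ`, of the `ℓ`-adic homology `H_a(X̄, ℚ_ℓ(b))` and of the cycle
class maps between them, for separated schemes `X` of finite type over `k`: localization, homotopy invariance,
products with `𝔾_m`, transfer for finite free coverings, and `TB` in dimension at most one and for certain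
products of curves (`Known`). For a smooth scheme `X` of pure dimension `d`, the cycle class map for `(a, b)` is
the map `c^{i,j}` of the problem with `i = 2d - a` and `j = d - b`.

Let `A` be a finitely generated `k`-algebra of dimension at most `e ≤ 1` (for example `k` or `k[t]`). We prove the
conjectures of Tate (surjectivity), Beilinson (injectivity) and semisimplicity in all degrees for the schemes given
by polynomials `f_1, ..., f_s` over `A` in any number of variables such that (`Few`)
* `s = 1` and `f_1` has at most `4 - e` terms, or
* `e + ∑ max (0, dim Newt(f_l) - 1) ≤ 1`, or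
* the exponents are independent and `e + ∑ max (0, #(terms of f_l) - 2) ≤ 3`, or
* the exponents are independent, `N` times every integral function on the exponents is linear and integral up to
  constants (`Split`), and `N` divides `4 p ^ a`, `6 p ^ a` (`e = 0`) or `p ^ a (p ^ ν + 1)`; here the number of
  terms is arbitrary (for example `c_1 x_1 ^ d_1 + ... + c_n x_n ^ d_n = c_0` with all `d_i` dividing `N`).
The schemes are: the zeros of `f`, the complement of the zeros, and the hypersurface `∑ w_l f_l = 1`. The last two
are smooth if `A` is smooth.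

Proof: the partial sums of the terms of the `f_l` and the coordinates define a stratification. The strata are given
in a torus by equations with at most three terms. A finite covering of the stratum, obtained by adjoining the
`N`-th roots of the quotients of two terms, is isomorphic to `𝔾_m ^ r × Spec E × C ^ m`, where `C` is the open
Fermat curve of degree `N`, `dim E ≤ dim A`, and `m ≤ ∑ max (0, #(terms of f_l) - 2)`.
-/

set_option autoImplicit false

open AlgebraicGeometry CategoryTheory Pool.Agent.Y116.UV Pool.Agent.E8helper74.FQ

namespace Pool.Agent.Results.MP_81b968_ag.FewTermsH74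

section few

variable {A : Type} [CommRing A] {n s : ℕ}

/-- The dimension of the Newton polytope of `g`: the rank of the group generated by the differences of the
exponents of the monomials of `g`. -/
noncomputable def newtonDim (g : MvPolynomial (Fin n) A) : ℕ :=
  Module.finrank ℤ (Submodule.span ℤ {d : Fin n → ℤ | ∃ m ∈ g.support, ∃ m' ∈ g.support,
    d = fun i => (m i : ℤ) - (m' i : ℤ)})

/-- The exponents of `f_1, ..., f_s` are independent: the vectors `(e_l, m)` in `ℚ ^ s × ℚ ^ n`, where `m` is an
exponent of `f_l`, are linearly independent. -/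
def Independent (f : Fin s → MvPolynomial (Fin n) A) : Prop :=
  LinearIndependent ℚ fun x : Σ l : Fin s, (f l).support =>
    ((fun l => if l = x.1 then 1 else 0, fun j => (((x.2 : Fin n →₀ ℕ) j : ℕ) : ℚ)) :
      (Fin s → ℚ) × (Fin n → ℚ))

/-- Every integral function `w` on the exponents of `f_1, ..., f_s` becomes, after multiplication by `N` and up to
a constant `b_l` for each `l`, the restriction of an integral linear form on `ℤ ^ n`. (For `N > 0` this implies
that the exponents are independent, and independent exponents have this property for some `N > 0`.) -/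
def Split (N : ℕ) (f : Fin s → MvPolynomial (Fin n) A) : Prop :=
  ∀ w : Fin s → (Fin n →₀ ℕ) → ℤ, ∃ (r : Fin n → ℤ) (b : Fin s → ℤ), ∀ l, ∀ m ∈ (f l).support,
    ∑ j, (m j : ℤ) * r j = b l + N * w l m

/-- The conditions on the system `f_1, ..., f_s` (`p` is the characteristic and `e ≥ dim A`). -/
def Few (p e : ℕ) (f : Fin s → MvPolynomial (Fin n) A) : Prop :=
  (s = 1 ∧ ∀ l, (f l).support.card + e ≤ 4) ∨
  (e + ∑ l, (newtonDim (f l) - 1) ≤ 1) ∨
  (Independent f ∧ e + ∑ l, ((f l).support.card - 2) ≤ 3) ∨
  ∃ N : ℕ, 0 < N ∧ Split N f ∧ Known p e (∑ l, ((f l).support.card - 2)) N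

end few

/-- The conjectures of Tate and Beilinson and semisimplicity for `X`, in all degrees: the cycle class maps are
injective with image the generalized eigenspace of Frobenius for the eigenvalue `1`; in particular they are
isomorphisms onto the Frobenius invariants. -/
def Conj {k : Type} [Field k] {ℓ : ℕ} [Fact ℓ.Prime] (T : CycleTheory k ℓ) (X : Sch k) : Prop :=
  T.TB X ∧ ∀ a b, OntoInv (T.F a b X) (T.cl a b X)

/-- Let `k` be a finite field, `A` a finitely generated `k`-algebra of dimension at most `e ≤ 1` and
`f_1, ..., f_s` a system of polynomials over `A` with `Few`. Then the conjectures are true in all degrees for the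
scheme `f = 0`, for its complement `U` in the affine space over `A`, and for the hypersurface `∑ w_l f_l = 1`. If
`A` is smooth over `k`, then the last two are smooth. -/
theorem result (k : Type) [Field k] [Finite k] (ℓ : ℕ) [Fact ℓ.Prime] (T : CycleTheory k ℓ)
    (A : Type) [CommRing A] [Algebra k A] [Algebra.FiniteType k A] (e : ℕ) (he : e ≤ 1)
    (hA : ringKrullDim A ≤ (e : WithBot ℕ∞)) (n s : ℕ) (f : Fin s → MvPolynomial (Fin n) A)
    (hf : Few (ringChar k) e f) :
    Conj T (aff k (MvPolynomial (Fin n) A ⧸ Ideal.span (Set.range f))) ∧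
    (∀ (U : Sch k) (j : U ⟶ aff k (MvPolynomial (Fin n) A)), IsLocus f j → Conj T U) ∧
    Conj T (aff k (Jou f)) ∧
    (Algebra.Smooth k A →
      (∀ (U : Sch k) (j : U ⟶ aff k (MvPolynomial (Fin n) A)), IsLocus f j → Smooth U.hom) ∧
      Smooth (aff k (Jou f)).hom) := by
  have hconj : ∀ X : Sch k, T.TB X → Conj T X := by
    intro X h
    refine ⟨h, fun a b => ⟨(h a b).1, fun v hv => (h a b).2 v 1 ?_⟩⟩
    rw [pow_one, LinearMap.sub_apply, hv]
    simp
  have hcay : ∀ (s : ℕ) (f : Fin s → MvPolynomial (Fin n) A), Independent f →
      LinearIndependent ℚ (cay f) := by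
    intro s f h
    have h1 : cay f = fun x : Σ l : Fin s, (f l).support =>
        ((fun l => if l = x.1 then 1 else 0, fun j => (((x.2 : Fin n →₀ ℕ) j : ℕ) : ℚ)) :
          (Fin s → ℚ) × (Fin n → ℚ)) := by
      funext x
      refine Prod.ext (funext fun l => ?_) rfl
      unfold cay
      by_cases h : l = x.1 <;> simp [h]
    rw [h1]
    exact h
  have hind : ∀ (s : ℕ) (f : Fin s → MvPolynomial (Fin n) A), Independent f →
      e + ∑ l, ((f l).support.card - 2) ≤ 3 →
      T.TB (aff k (MvPolynomial (Fin n) A ⧸ Ideal.span (Set.range f))) := by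
    intro s f h1 h2
    obtain ⟨N, hN, hS⟩ := split_of_indep f (hcay s f h1)
    exact fermat_poly T.good hN f hS fun E _ _ _ m hE hm => T.products E e m N (hE.trans hA) hN
      (Or.inl ⟨he, by omega⟩)
  have hk : Algebra.FiniteType ℤ k := by
    have : Module.Finite ℤ k := Module.Finite.of_finite
    infer_instance
  have hAZ : Algebra.FiniteType ℤ A := Algebra.FiniteType.trans (S := k) hk inferInstance
  have hnew : ∀ (s : ℕ) (f : Fin s → MvPolynomial (Fin n) A),
      e + ∑ l, (newtonDim (f l) - 1) ≤ 1 →
      T.TB (aff k (MvPolynomial (Fin n) A ⧸ Ideal.span (Set.range f))) := by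
    intro s f h1
    refine Pool.Agent.E8helper74.BA.newton f T.good' ?_ (algebraMap k _)
    refine (add_le_add_left hA _).trans ?_
    exact_mod_cast h1
  have hZ : T.TB (aff k (MvPolynomial (Fin n) A ⧸ Ideal.span (Set.range f))) := by
    rcases hf with ⟨hs, h1⟩ | h1 | ⟨h1, h2⟩ | ⟨N, hN, hS, hK⟩
    · subst hs
      obtain ⟨g, rfl⟩ : ∃ g, f = fun _ => g := ⟨f 0, funext fun l => by rw [Subsingleton.elim l 0]⟩
      by_cases hi : Independent fun _ : Fin 1 => g
      · refine hind 1 _ hi ?_
        rw [Fin.sum_univ_one]
        have h6 : g.support.card + e ≤ 4 := h1 0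
        omega
      · have h2 : ¬ LinearIndependent ℚ (cay fun _ : Fin 1 => g) := by
          intro h3
          apply hi
          have h5 : cay (fun _ : Fin 1 => g) = fun x : Σ _ : Fin 1, g.support =>
              ((fun l => if l = x.1 then 1 else 0, fun j => (((x.2 : Fin n →₀ ℕ) j : ℕ) : ℚ)) :
                (Fin 1 → ℚ) × (Fin n → ℚ)) := by
            funext x
            refine Prod.ext (funext fun l => ?_) rfl
            unfold cay
            by_cases h : l = x.1 <;> simp [h]
          rw [h5] at h3
          exact h3
        have h3 : newtonDim g ≤ g.support.card - 2 := newton_dep g h2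
        refine hnew 1 _ ?_
        rw [Fin.sum_univ_one]
        have h6 : g.support.card + e ≤ 4 := h1 0
        omega
    · exact hnew s f h1
    · exact hind s f h1 h2
    · refine fermat_poly T.good hN f (fun w => hS w) fun E _ _ _ m hE hm =>
        T.products E e m N (hE.trans hA) hN ?_
      rcases hK with ⟨h1, h2⟩ | h1 | h1
      · exact Or.inl ⟨h1, by omega⟩
      · exact Or.inr (Or.inl h1)
      · exact Or.inr (Or.inr h1)
  have hT : T.TB (aff k (MvPolynomial (Fin n) A)) := by
    have h0 : T.TB (aff k A) := T.curves _ (ft_aff True) (by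
      rw [Pool.Agent.Z125.UN.topDim_aff]
      refine hA.trans ?_
      exact_mod_cast he)
    exact Pool.Agent.Z125.UN.p_poly T.bnd (A := A) (Fin n) h0
  have hP : Algebra.FiniteType k (MvPolynomial (Fin n) A) :=
    Algebra.FiniteType.trans (S := A) inferInstance inferInstance
  refine ⟨hconj _ hZ, fun U j hj => hconj _ (p_open f T.bnd hT hZ U j hj.1 hj.2),
    hconj _ (p_jou f T.bnd hT hZ), fun hsm => ?_⟩
  have h0 : Algebra.Smooth A (MvPolynomial (Fin n) A) := ⟨inferInstance, inferInstance⟩
  have h1 : Algebra.Smooth k (MvPolynomial (Fin n) A) := Algebra.Smooth.comp k A _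
  exact ⟨fun U j hj => smooth_open U j hj.1, smooth_jou f⟩

end Pool.Agent.Results.MP_81b968_ag.FewTermsH74
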