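import Pool.Agent.E8helper65.PG.SmoothDefs
import Pool.Agent.E8helper65.PG.Main

/-!
# The Tate conjecture for the higher Chow groups of the smooth varieties generated by abelian varieties
# of dimension at most five, and by products of elliptic curves, abelian surfaces and threefolds

An abelian variety over the field with `p ^ a` elements is modelled by `RedAV` (Honda, Tate): a
finite product of CM types `(E i, Φ i)` with Weil numbers `π i ∈ E i` that satisfy the formula of
Shimura and Taniyama; its cohomology of degree `n`, with coefficients in an algebraically closed field
`Ω`, consists of the alternating `n`-forms on the Tate module `Ω ⊗ H_1`, on which the Frobenius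
endomorphism acts by `π`.

We consider (`IsGoodAVP`) the abelian varieties `Y` over finite fields of the following kinds:

* **all abelian varieties of dimension at most five**;
* the abelian varieties that are isogenous, over an algebraic closure, to a product of a supersingular
  abelian variety of any dimension and of abelian varieties of dimension at most three (any number, any
  multiplicity), such that any two factors of dimension three whose CM fields have the same Galois
  closure satisfy one of the following: their fields are Galois over `ℚ`; one of them is supersingular;
  they are isogenous; neither of them is ordinary and their `p`-ranks are not `{1, 2}`. So `Y` may be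
  **any product of elliptic curves and abelian surfaces**, of any dimension.

`Homology Ω V` are data of motivic homology `M X n j = H_n^M(X, ℚ(j)) = CH_j(X, n - 2 j) ⊗ ℚ` (higher
Chow groups) and of `ℓ`-adic homology `E X n j = H_n(X, ℚ_ℓ(j))` of schemes `X : V` of finite type over
finite fields, with the Frobenius and the regulator. Let `𝒢` (`GeneratedD`) be the smallest class of
schemes that contains those with the homology groups of the abelian varieties above, that is closed
under direct summands of finite sums of twists of motives, that contains all of a closed subscheme
`Z` of `X`, `X` and `X ∖ Z` if it contains two of them, and that contains `X` if it contains the base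
change of `X` to a finite extension of the ground field. For example, it contains all products of
curves of genus at most two and of open subsets of such curves, the twisted forms of such products,
symmetric powers of them, the complements in an abelian variety of dimension at most five of the
subvarieties stratified by members, and so on.

**Theorem.** Let `X` be a **smooth** member of `𝒢`, of pure dimension `d`, proper or not. Then for **all**
`i` and `j` the cycle class map `c^{i, j} : CH^j(X, 2 j - i) ⊗ ℚ_ℓ → V^{i, j}(X)` is surjective onto
the Galois invariants `V^{i, j}(X)` of `H^i(X, ℚ_ℓ(j))`, and it is injective.

Properties of the theory of cycles that are used for the abelian varieties `Y` (`IsChowS`,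
`IsMotivic`): Poincaré duality, the formal properties of correspondences, the nilpotence of
homologically trivial correspondences (Kimura), the operation of the Frobenius endomorphism on higher
Chow groups, the vanishing of the higher rational `K`-groups of a finite field (Quillen), and the
algebraicity of the classes in `AlgS` (theorems of Tate, Markman and Ramón Marí). That all Tate classes
on `Y` are in `AlgS`, and that the conjecture of Tate for `Y` implies the conjecture of Tate and
Beilinson `TB` in all degrees and passes to direct summands and to open and closed subschemes, is in
the starting files (following Soulé, Geisser, Kahn and Jannsen). New here are the descent along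
extensions of the ground field and the application to the higher Chow groups of smooth varieties.
-/

set_option autoImplicit false

namespace Pool.Agent.Results.MP_81b968_ag.GeneratedSmallAbelianH65

open Pool.Agent.W495.TA Pool.Agent.W495.FM Pool.Agent.E8helper65.PG
  Pool.Agent.R937.PG

/-- The maps `c^{i, j}` are bijective (onto the Galois invariants, after extension of scalars), for all
smooth schemes in the class generated by the abelian varieties `IsGoodAVP`. -/
theorem result (p : ℕ) [Fact p.Prime] (ν : PadicAlgCl p ≃+* ℂ) (Ω : Type) [Field Ω]
    [IsAlgClosed Ω] [CharZero Ω] (V : Type) (T : Homology Ω V) (hT : IsHomology T) (X : V)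
    (hX : GeneratedD T (IsGoodAbelianP p ν T) X) (d : ℤ) (B : Cohomology Ω)
    (hB : IsSmoothCohomology T X d B) (i j : ℤ) : IsSurjective B i j ∧ IsInjective B i j := by
  obtain ⟨f, β, hf, hfb, ⟨b, hb⟩, hβ, hreg, hfrob⟩ := hB i j
  have hTB := tb_goodD hT hX (2 * d - i) (d - j)
  have hbinj : Function.Injective b := fun x y hxy => hβ.1 (by rw [hb, hb, hxy])
  constructor
  · intro e he
    have h1 : T.frob X _ _ (β e) = β e := by rw [hfrob, he]
    have h2 := (hTB.1 _).1 h1
    have h3 : Set.range (T.reg X (2 * d - i) (d - j)) ⊆ ⇑b '' Set.range (B.c i j) := by
      rintro _ ⟨y, rfl⟩
      obtain ⟨x, rfl⟩ := hfb.2 y
      exact ⟨_, ⟨x, rfl⟩, by rw [hreg, hb]⟩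
    have h4 := Submodule.span_mono h3 h2
    rw [Submodule.span_image] at h4
    obtain ⟨y, hy, hy2⟩ := h4
    rw [hb] at hy2
    rw [← hbinj hy2]
    exact hy
  · intro r x hx
    let g : B.A i j →+ T.M X (2 * d - i) (d - j) :=
      { toFun := f
        map_zero' := isAdd_zero hf
        map_add' := hf }
    have hli : LinearIndependent ℚ fun k => f (x k) :=
      hx.map' (g.toRatLinearMap) (LinearMap.ker_eq_bot.2 hfb.1)
    have h5 := hTB.2.1 r _ hli
    have h6 : (fun k => T.reg X _ _ (f (x k))) = ⇑b ∘ fun k => B.c i j (x k) := by
      funext k
      rw [hreg, hb]
      rfl
    rw [h6] at h5
    exact LinearIndependent.of_comp b h5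

end Pool.Agent.Results.MP_81b968_ag.GeneratedSmallAbelianH65
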