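import Mathlib
import Pool.Agent.E8helper65.RT.Main
import Pool.Agent.E8helper65.RT.Pn

/-!
# The Tate conjecture for the higher Chow groups of the products of arbitrary varieties with abelian
# varieties of maximal angle rank, and so of almost all slope types of all CM fields

Let `K i` (`i` in a finite set) be CM fields, and let `π i` be Weil numbers for `q = p ^ a` that
generate the fields `K i`, such that the only multiplicative relations between the conjugates of the
`π i` and `q` are the trivial ones given by `π * conj π = q` (`MaximalAngleRank`). Let `A` be an
abelian variety over the field with `Q = q ^ s` elements which is isogenous to a product of powers of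
abelian varieties coming from the field with `q` elements, with characteristic polynomials of
Frobenius all of whose roots are conjugates of the `π i` (`IsPolyOf`; `A` is given by its Chow ring,
cohomology and correspondences, `IsAbelian`). Let `U` be **any** variety over the field with `Q`
elements, smooth or not, proper or not, such that the Frobenius endomorphism of `U` satisfies, on the
`ℓ`-adic cohomology of `A × U`, a polynomial with rational coefficients all of whose complex roots `ρ`
are unrelated to the fields `K i` (`Unrelated`; this is a condition on the Frobenius eigenvalues of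
`U`): a function `n` on the complex embeddings of `K i` with `n (conj φ) = - n φ` which is invariant
under all automorphisms of `ℂ` that fix a power of `ρ` is zero. It holds if a power of each
`ρ` lies in a field linearly disjoint from the normal closures of the `K i`, or in a totally real
field; also if the degree of `ρ` is less than twice the dimension of each nonzero space of functions
`n` stable under all automorphisms of `ℂ`. No semisimplicity and no form of the Tate conjecture is
assumed for `U`.

**Theorem.** There are finitely many products `D t` of `c t` divisor classes on `A`, depending only on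
`A`, such that the Frobenius invariants `V^(i, j)` satisfy the Kunneth formula
`V^(i, j)(A × U) = ⨁ D t × V^(i - 2 c t, j - c t)(U)`, and for all `i` and `j` the following holds for
the higher Chow groups, with coefficients extended to `ℚ_ℓ`:

  **the map `c^(i, j) : CH^j(A × U, 2 j - i) ⊗ ℚ_ℓ → V^(i, j)(A × U)` is surjective if and only if the
  maps `c^(i - 2 k, j - k) : CH^(j - k)(U, 2 j - i) ⊗ ℚ_ℓ → V^(i - 2 k, j - k)(U)`, `0 ≤ k ≤ dim A`,
  are surjective.**

So Q1 holds for `A × U`, in all bidegrees, if and only if it holds for `U`. The same is true for the
regulators on motivic cohomology with compact supports or on motivic homology.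

The second part of the theorem says that the angle rank is maximal for almost all slope types of all
CM fields, so that the theorem applies to them. We fix an isomorphism `ν` of the algebraic closure of
`ℚ_p` with `ℂ`. Let `K i` be pairwise independent CM fields of degree `2 g i` (for `i ≠ k` and all
complex embeddings `φ` of `K i` and `ψ` of `K k` some automorphism of `ℂ` is the identity on
`φ (K i)` and the complex conjugation on `ψ (K k)`), and let `M i` be a function with nonzero
integral values, all of which divide `n i`, on the complex embeddings of `K i`, invariant under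
complex conjugation. A CM type `Φ i` of `K i`, `M i` and a real number `κ ≠ 0` prescribe the slopes
`(a + κ M) / 2` (at the embeddings in `Φ i`) and `(a - κ M) / 2` (outside of `Φ i`) of a Weil number for
`p ^ a` in `K i` (`HasType`). There are `2 ^ (∑ i, g i)` families of CM types. A family is exceptional
(`exceptionalFamilies`) if the theorem above is false for some Weil numbers with these slope types.
The number of the exceptional families is at most
`2 ^ (∑ i, g i) * ∑ i, C * (n i) ^ 2 * rate (K i) (g i) (q i)`, with an absolute constant `C`. Here
`q i` is any prime factor of `g i` (or `q i = 1`), and `rate K g q` is `(1 + log (2 g)) ^ 16` times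
the smaller of the numbers `W (K) / √g` and `√g / q`, where (third part, `WeightEstimate`)
`W (K) ≤ N ^ 2 * D ^ (1 / 4)`; `N` is the number of the CM subfields of `K` and `D` is the largest
degree of a CM subfield of `K` that is normal over `ℚ` with a nonabelian Galois group.

The bound for the number of the types without maximal angle rank is in the starting files
(`Pool/Agent/Y1`). The starting result on this problem, `AlmostAllAbelianFactors`, treats the abelian
varieties of almost all Weil polynomials and `U` whose Frobenius eigenvalues generate a group of small
rank over a fixed number field. Here the rank of `U` is arbitrary and the angle rank is the only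
assumption on `A`.
The proof: the nilpotence of homologically trivial correspondences is used only for `A` (theorem of
Kimura). A polynomial in the Frobenius endomorphism of `A` acts on the cohomology of `A` through the
part generated by divisors, and it is invertible on the Frobenius invariants, as there the Frobenius
endomorphisms of `A` and `U` have the product `Q ^ j`.
-/

set_option autoImplicit false

namespace Pool.Agent.Results.MP_81b968_ag.TimesUnrelatedH65

open NumberField Module IntermediateField Polynomial Pool.Agent.H204R3.CM Pool.Agent.H977R3.CM
  Pool.Agent.TH170 Pool.Agent.Y1.KN Pool.Agent.Y1.CT Pool.Agent.Y1.TS Pool.Agent.Y137.MV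
  Pool.Agent.E8helper65.RT

/-- The theorem on the maps `c^(i, j)` holds for all abelian varieties `A` whose Frobenius eigenvalues
are powers of conjugates of the Weil numbers `π i`, and all `U` unrelated to the fields `K i`. -/
def HoldsFor (p a : ℕ) {I : Type} (K : I → Type) [∀ i, Field (K i)] (π : ∀ i, K i) : Prop :=
  ∀ f : I → ℤ[X], (∀ i, IsPolyOf (π i) (f i)) → TateTimes (Unrelated K) (p ^ a) f

/-- The exceptional families of CM types. -/
def exceptionalFamilies {p : ℕ} [Fact p.Prime] (ν : PadicAlgCl p ≃+* ℂ) {I : Type} [Fintype I]
    (K : I → Type) [∀ i, Field (K i)] [∀ i, NumberField (K i)] [∀ i, IsCMField (K i)]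
    (M : ∀ i, (K i →+* ℂ) → ℤ) : Set (∀ i, Set (K i →+* ℂ)) :=
  {Φ | (∀ i, IsCMType (Φ i)) ∧ ¬ ForAllWeil ν K M (fun a π => HoldsFor p a K π) Φ}

/-- **The Tate conjecture for the higher Chow groups of `A × U` in bidegree `(i, j)` is equivalent to
the one for `U` in the bidegrees `(i - 2 k, j - k)`, `0 ≤ k ≤ dim A`**, for the abelian varieties `A` of
maximal angle rank, hence of almost all slope types of all CM fields, and all unrelated `U`. -/
theorem result :
    (∀ (p : ℕ) [Fact p.Prime] (a : ℕ) (_ : 0 < a) (I : Type) [Fintype I] (K : I → Type)
      [∀ i, Field (K i)] [∀ i, NumberField (K i)] [∀ i, IsCMField (K i)] (π : ∀ i, K i),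
      (∀ i, ℚ⟮π i⟯ = ⊤) → (∀ i, π i * IsCMField.complexConj (K i) (π i) = (p : K i) ^ a) →
      MaximalAngleRank (p ^ a) π → HoldsFor p a K π) ∧
    (∃ C : ℝ, 0 ≤ C ∧ ∀ (p : ℕ) [Fact p.Prime] (ν : PadicAlgCl p ≃+* ℂ) (I : Type) [Fintype I]
      (K : I → Type) [∀ i, Field (K i)] [∀ i, NumberField (K i)] [∀ i, IsCMField (K i)]
      (M : ∀ i, (K i →+* ℂ) → ℤ) (n g q : I → ℕ), PairwiseIndep K →
      (∀ i φ, M i (ComplexEmbedding.conjugate φ) = M i φ) → (∀ i, n i ≠ 0) →
      (∀ i φ, M i φ ∣ (n i : ℤ)) → (∀ i, finrank ℚ (K i) = 2 * g i) →
      (∀ i, q i ∣ g i ∧ (q i = 1 ∨ (q i).Prime)) →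
      ((exceptionalFamilies ν K M).ncard : ℝ) ≤
        2 ^ (∑ i, g i) * ∑ i, C * (n i : ℝ) ^ 2 * rate (K i) (g i) (q i)) ∧
    WeightEstimate := by
  have key : ∀ (p : ℕ) [Fact p.Prime] (a : ℕ) (_ : 0 < a) (I : Type) [Fintype I] (K : I → Type)
      [∀ i, Field (K i)] [∀ i, NumberField (K i)] [∀ i, IsCMField (K i)] (π : ∀ i, K i),
      (∀ i, ℚ⟮π i⟯ = ⊤) → (∀ i, π i * IsCMField.complexConj (K i) (π i) = (p : K i) ^ a) →
      MaximalAngleRank (p ^ a) π → HoldsFor p a K π := by
    intro p _ a ha I _ K _ _ _ π _ hw hang f hf
    exact tateTimes (Nat.one_lt_pow ha.ne' (Fact.out : p.Prime).one_lt) (noRel_of_angle hang hw f hf)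
      (unrelated_zero K)
  obtain ⟨C, hC0, hC⟩ := ncard_of_angle
  refine ⟨key, ⟨C, hC0, ?_⟩, weight_estimate_holds⟩
  intro p _ ν I _ K _ _ _ M n g q hind hM hn hMn hg hq
  exact hC p ν I K M n g q hind hM hn hMn hg hq _ fun a π ha hgen hw hang =>
    key p a ha I K π hgen hw hang

end Pool.Agent.Results.MP_81b968_ag.TimesUnrelatedH65
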